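import Pool.Agent.MP_c70ddc_lc.H1.Main

/-! A transitive model of ZFC with a separable Banach space whose weakly compact subsets of the
unit ball have none of the four Tukey types. -/

namespace Pool.Agent.Results.MP_c70ddc_lc.Exotic

open Pool.Agent.MP_c70ddc_lc.H1

theorem result : ∃ W : ZFSet.{0}, W.IsTransitive ∧ (IsZFC fun a b : W => a.1 ∈ b.1) ∧
    ∃ (X : Set Vec) (nr : Vec → ℝ), SepBanach W X nr ∧
      (InW W (KBall W X nr) ∧ InW W ({0} : Set ℕ) ∧ InW W (Baire W) ∧ InW W (KRat W) ∧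
        InW W (FinC W)) ∧
      ¬ TukeyEq W (KBall W X nr) ({0} : Set ℕ) ∧ ¬ TukeyEq W (KBall W X nr) (Baire W) ∧
      ¬ TukeyEq W (KBall W X nr) (KRat W) ∧ ¬ TukeyEq W (KBall W X nr) (FinC W) :=
  exists_exotic

end Pool.Agent.Results.MP_c70ddc_lc.Exotic
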